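import Pool.Agent.Lib.MP_44b5f4_ag.Form
import Pool.Agent.Lib.MP_44b5f4_ag.Tables

/-!
# Perazzo algebras with maximal Hilbert function, `m = 2`: all graded Betti numbers
-/

set_option autoImplicit false

namespace Pool.Agent.Results.MP_44b5f4_ag.MaxTwo

open Pool.Agent.Perazzo

/-- The graded Betti numbers of all Perazzo algebras with `m = 2` and maximal Hilbert function. -/
theorem result (K : Type) [Field K] [CharZero K] (n d : ℕ) (hn : 2 ≤ n) (hd : 2 ≤ d)
    (F : MvPolynomial (Fin (2 + (n + 1))) K) (hF : IsPerazzo d F)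
    (hmax : ∀ q, 1 ≤ q → 2 * q ≤ d →
      hilb (Ann F) q = min ((q + 1) + (d - q + 1)) ((q + 1) + (n + 1) * q))
    (i j : ℕ) : (gradedBetti (Ann F) i j : ℤ) = maxTable n d i j := by
  have hle : n + 1 ≤ d := by
    have := hF.card_le
    rw [Nat.multichoose_two] at this
    omega
  have hfin := AF_fin (hF.hom (by omega))
  exact max_table (mkGA (hF.hom (by omega)) hF.ne_zero hF.xx (by
    have := hmax 1 (by omega) (by omega)
    omega)) hn hd (fun q h1 h2 => (hmax q h1 h2).trans (by
      have : (q + 1) + (d - q + 1) = d + 2 := by omega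
      rw [this])) i j

end Pool.Agent.Results.MP_44b5f4_ag.MaxTwo
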