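import Pool.Agent.Lib.MP_44b5f4_ag.Form
import Pool.Agent.Lib.MP_44b5f4_ag.Tables

/-!
# Perazzo algebras with minimal Hilbert function, `m = 2`: all graded Betti numbers

The Koszul homology of `A = R / Ann (F)` is computed from the exact sequence `0 → Z → A → A / Z → 0`,
where `Z` is the annihilator of the classes of the variables `x`: on `Z` and on `A / Z` these
variables act as zero, and the connecting maps vanish in all degrees but the first and the last.
-/

set_option autoImplicit false

namespace Pool.Agent.Results.MP_44b5f4_ag.MinTwo

open Pool.Agent.Perazzo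

/-- The graded Betti numbers of all Perazzo algebras with `m = 2` and minimal Hilbert function. -/
theorem result (K : Type) [Field K] [CharZero K] (n d : ℕ) (hn : 2 ≤ n) (hd : 2 ≤ d)
    (F : MvPolynomial (Fin (2 + (n + 1))) K) (hF : IsPerazzo d F)
    (hmin : ∀ q, 1 ≤ q → 2 * q ≤ d →
      hilb (Ann F) q = min (2 * (n + 1)) (min ((q + 1) + (n + 1)) ((q + 1) + (d - q + 1))))
    (i j : ℕ) : (gradedBetti (Ann F) i j : ℤ) = minTable n d i j := by
  have hle : n + 1 ≤ d := by
    have := hF.card_le
    rw [Nat.multichoose_two] at this
    omega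
  have hfin := AF_fin (hF.hom (by omega))
  exact min_table (mkGA (hF.hom (by omega)) hF.ne_zero hF.xx (by
    have := hmin 1 (by omega) (by omega)
    omega)) hn hd (fun q h1 h2 => (hmin q h1 h2).trans (by omega)) i j

end Pool.Agent.Results.MP_44b5f4_ag.MinTwo
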