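import Pool.Agent.Lib.MP_44b5f4_ag.ND5

/-!
# For `m ≥ 3` the Betti numbers are not determined by `(n, m, d)`

The forms are `F = ∑ X_s U^s`, where `U^s` runs through all monomials of degree `d - 1` in
`U_1, ..., U_m` except two; the two monomials are `U_1^(d-1), U_2^(d-1)` for the first form and
`U_1^(d-1), U_1^(d-2) U_2` for the second form.
-/

set_option autoImplicit false

namespace Pool.Agent.Results.MP_44b5f4_ag.NotDetermined

open Pool.Agent.Perazzo

/-- For all `m ≥ 3` and `d ≥ 4` and `n + 1 = C (m + d - 2, m - 1) - 2` all Perazzo algebras have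
the same Hilbert function in the degrees `1, ..., d / 2`, which is hence at the same time minimal
and maximal, and there are two of them with different numbers of generators of degree `d` of the
ideal. -/
theorem result (K : Type) [Field K] [CharZero K] (m n d : ℕ) (hm : 3 ≤ m) (hd : 4 ≤ d)
    (hn : n + 3 = al m (d - 1)) : m ≤ n ∧
    (∀ F : MvPolynomial (Fin (m + (n + 1))) K, IsPerazzo d F → ∀ q, 1 ≤ q → 2 * q ≤ d →
      hilb (Ann F) q = min (2 * (n + 1)) (min (al m q + (n + 1)) (al m q + al m (d - q))) ∧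
      hilb (Ann F) q = min (al m q + al m (d - q)) (al m q + (n + 1) * al m (q - 1))) ∧
    ∃ F F' : MvPolynomial (Fin (m + (n + 1))) K, IsPerazzo d F ∧ IsPerazzo d F' ∧
      gradedBetti (Ann F) 1 d < gradedBetti (Ann F') 1 d := by
  have hn' : n + 3 = m.multichoose (d - 1) := by rw [hn, al_eq (by omega)]
  have hgrow := mc_growth (q := d - 2) hm
  have e0 : d - 2 + 1 = d - 1 := by omega
  rw [e0] at hgrow
  have hmono : ∀ q q', q ≤ q' → m.multichoose q ≤ m.multichoose q' := by
    intro q q' h
    rw [← al_eq (by omega), ← al_eq (by omega)]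
    exact al_mono (by omega) h
  have htwo := mc_two m
  have h2m : 2 * m ≤ m.multichoose 2 := by
    have : 4 * m ≤ m * (m + 1) := by
      rw [mul_comm 4 m]
      exact Nat.mul_le_mul_left _ (by omega)
    omega
  have hmn : m ≤ n := by
    have := hmono 2 (d - 2) (by omega)
    omega
  refine ⟨hmn, ?_, ?_⟩
  · rintro F ⟨p, G, hp, hG, hl, -, rfl⟩ q hq hqd
    have h1 := fam_hilbA (G := G) hm hd hp hG hl hn' hq hqd
    unfold form at h1
    rw [h1]
    by_cases hq1 : q = 1
    · subst hq1
      rw [if_pos rfl, al_one (by omega), al_eq (by omega) (d - 1), ← hn']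
      have e1 : 1 - 1 = 0 := rfl
      rw [e1, al_zero (by omega)]
      exact ⟨by omega, by omega⟩
    · rw [if_neg hq1, al_eq (by omega), al_eq (by omega), al_eq (by omega)]
      have h3 := hmono q (d - q) (by omega)
      have h4 := hmono (d - q) (d - 2) (by omega)
      have h5 := hmono 0 (q - 1) (by omega)
      rw [Nat.multichoose_zero_right] at h5
      have h6 : (n + 1) * 1 ≤ (n + 1) * m.multichoose (q - 1) := Nat.mul_le_mul_left _ h5
      exact ⟨by omega, by omega⟩
  set v0 : Fin m := ⟨0, by omega⟩ with hv0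
  set v1 : Fin m := ⟨1, by omega⟩ with hv1
  set v2 : Fin m := ⟨2, by omega⟩ with hv2
  have h01 : v0 ≠ v1 := by rw [hv0, hv1]; simp
  have h02 : v0 ≠ v2 := by rw [hv0, hv2]; simp
  have h12 : v1 ≠ v2 := by rw [hv1, hv2]; simp
  let a : Fin m →₀ ℕ := Finsupp.single v0 (d - 1)
  let b : Fin m →₀ ℕ := Finsupp.single v1 (d - 1)
  let b' : Fin m →₀ ℕ := Finsupp.single v0 (d - 2) + Finsupp.single v1 1
  have da : a.degree = d - 1 := Finsupp.degree_single _ _
  have db : b.degree = d - 1 := Finsupp.degree_single _ _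
  have db' : b'.degree = d - 1 := by
    show (Finsupp.single v0 (d - 2) + Finsupp.single v1 1).degree = d - 1
    rw [map_add, Finsupp.degree_single, Finsupp.degree_single]
    omega
  have hab : a ≠ b := by
    intro h
    have := DFunLike.congr_fun h v0
    simp [a, b, h01] at this
    omega
  have hab' : a ≠ b' := by
    intro h
    have := DFunLike.congr_fun h v1
    simp [a, b', Ne.symm h01] at this
  obtain ⟨e⟩ := mset_equiv (n := n) da db hab hn'
  obtain ⟨e'⟩ := mset_equiv (n := n) da db' hab' hn'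
  refine ⟨form (mfam K e) 0, form (mfam K e') 0, ?_, ?_, ?_⟩
  · exact mfam_perazzo hm hd (by simp [a, ← hv2, h02]) (by simp [b, ← hv2, h12]) e
  · exact mfam_perazzo hm hd (by simp [a, ← hv2, h02]) (by simp [b', ← hv2, h02, h12]) e'
  · refine compare hm hd ?_ rfl rfl e e'
    intro v w h
    have h1 : (a + Finsupp.single v 1 : Fin m →₀ ℕ) v0 = (b + Finsupp.single w 1 : Fin m →₀ ℕ) v0 :=
      DFunLike.congr_fun h v0
    have h2 : d - 1 ≤ (a + Finsupp.single v 1 : Fin m →₀ ℕ) v0 := by
      rw [Finsupp.add_apply]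
      have : a v0 = d - 1 := Finsupp.single_eq_same
      omega
    have h3 : (b + Finsupp.single w 1 : Fin m →₀ ℕ) v0 ≤ 1 := by
      rw [Finsupp.add_apply]
      have h4 : b v0 = 0 := Finsupp.single_eq_of_ne h01
      have h5 : (Finsupp.single w 1 : Fin m →₀ ℕ) v0 ≤ 1 := by
        rw [Finsupp.single_apply]
        split_ifs <;> simp
      omega
    omega

end Pool.Agent.Results.MP_44b5f4_ag.NotDetermined
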