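import Pool.Agent.Lib.MP_44b5f4_ag.Pts2

/-!
# Reduction of the Betti numbers of a Perazzo algebra to those of an algebra in `m` variables

The form `F = X_0 p_0 + ... + X_n p_n + G` gives the algebra `A = R / Ann (F)`, and the family `p`
gives the algebra `B = K[u_1, ..., u_m] / Ann (p_0, ..., p_n)`. There is an exact sequence
`0 → Z → A → B → 0` in which `Z` is the annihilator of the classes of the variables `x`, and `Z` is
dual to `B` under the stated conditions.
-/

set_option autoImplicit false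

namespace Pool.Agent.Results.MP_44b5f4_ag.Reduction

open Pool.Agent.Perazzo

theorem al_succ_le {m : ℕ} (hm : 1 ≤ m) (q : ℕ) : al m (q + 1) ≤ m * al m q := by
  obtain ⟨k, rfl⟩ : ∃ k, m = k + 1 := ⟨m - 1, by omega⟩
  unfold al
  have e1 : k + 1 + (q + 1) - 1 = k + q + 1 := by omega
  have e2 : k + 1 + q - 1 = k + q := by omega
  have e3 : k + 1 - 1 = k := rfl
  rw [e1, e2, e3]
  have h := Nat.choose_mul_succ_eq (k + q) k
  have e4 : k + q + 1 - k = q + 1 := by omega
  rw [e4] at h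
  refine Nat.le_of_mul_le_mul_right (c := q + 1) ?_ (by omega)
  rw [← h, mul_comm (k + 1), mul_assoc]
  refine Nat.mul_le_mul_left _ ?_
  have : (k + 1) * (q + 1) = k * q + (k + q + 1) := by ring
  omega

theorem even_cond {m n d : ℕ} (hm : 2 ≤ m) (hmn : m ≤ n) (hd : 2 ≤ d) (he : Even d) :
    al m ((d + 1) / 2) ≤ (n + 1) * al m (d / 2 - 1) := by
  obtain ⟨k, hk⟩ := he
  have e1 : (d + 1) / 2 = (d / 2 - 1) + 1 := by omega
  rw [e1]
  exact (al_succ_le (by omega) _).trans (Nat.mul_le_mul_right _ (by omega))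

/-- The graded Betti numbers of `A` in terms of those of `B`. -/
theorem result (K : Type) [Field K] [CharZero K] (m n d : ℕ) (hm : 2 ≤ m) (hmn : m ≤ n)
    (hd : 2 ≤ d) (p : Fin (n + 1) → MvPolynomial (Fin m) K) (G : MvPolynomial (Fin m) K)
    (hp : ∀ i, (p i).IsHomogeneous (d - 1)) (hG : G.IsHomogeneous d) (hl : LinearIndependent K p) :
    ((((∀ q, 1 ≤ q → 2 * q ≤ d → hilb (Ann (form p G)) q =
          min (al m q + al m (d - q)) (al m q + (n + 1) * al m (q - 1))) ∧
        (Even d ∨ al m ((d + 1) / 2) ≤ (n + 1) * al m (d / 2 - 1))) ∨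
      ((∀ q, 1 ≤ q → 2 * q ≤ d → hilb (Ann (form p G)) q =
          min (2 * (n + 1)) (min (al m q + (n + 1)) (al m q + al m (d - q)))) ∧
        (2 * (n + 1) ≤ d ∨ al m ((d + 1) / 2) ≤ n + 1)) ∨
      (2 * (n + 1) ≤ d ∧ hilb (Ann (form p G)) 1 = m + (n + 1) ∧
        hilb (Ann (form p G)) (n + 1) ≤ 2 * (n + 1)) ∨
      (∀ (q : ℕ) (φ : MvPolynomial (Fin m) K), 2 * q ≤ d + 1 → φ.IsHomogeneous q →
        φ ∈ AnnFam p → φ = 0) ∨
      (hilb (AnnFam p) 1 = m ∧
        (∀ q, 1 ≤ q → q + 1 ≤ d → hilb (Ann (form p G)) q =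
          hilb (AnnFam p) q + hilb (AnnFam p) (d - q)) ∧
        (∀ q, 1 ≤ q → q + 2 ≤ d → (∀ k, gradedBetti (AnnFam p) k (k + q) = 0) ∨
          (∀ k, gradedBetti (AnnFam p) k (k + (d - 1 - q)) = 0)))) →
      ∀ i j : ℕ, (gradedBetti (Ann (form p G)) i j : ℤ) =
        redTable m n d (gradedBetti (AnnFam p)) i j) ∧
    (2 * (n + 1) ≤ d → hilb (Ann (form p G)) 1 = m + (n + 1) →
      hilb (Ann (form p G)) (n + 1) ≤ 2 * (n + 1) → ∀ k : ℕ,
        (∀ q, n + 1 ≤ q → q + 2 ≤ d → gradedBetti (AnnFam p) k (k + q) = 0) ∧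
        gradedBetti (AnnFam p) k (k + (d - 1)) + (n + 1) * (m - 1).choose k =
          (n + 1) * m.choose k) := by
  constructor
  · intro h i j
    rcases h with ⟨h1, h2⟩ | ⟨h1, h2⟩ | ⟨h1, h2, h3⟩ | h | ⟨h1, h2, h3⟩
    · exact red_max (by omega) hd hp hG hl h1 (h2.elim (even_cond hm hmn hd) id) i j
    · rcases h2 with h2 | h2
      · have hcard := fam_card_le hp hl
        rw [← al_eq (by omega)] at hcard
        refine red_pts h2 hp hG hl ?_ ?_ i j
        · rw [h1 1 (by omega) (by omega), al_one (by omega)]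
          omega
        · rw [h1 (n + 1) (by omega) (by omega)]
          exact min_le_left _ _
      · exact red_min (by omega) hmn hd hp hG hl h1 h2 i j
    · exact red_pts h1 hp hG hl h2 h3 i j
    · exact red_free hd hp hG hl h i j
    · exact red_split hd hp hG hl h1 h2 h3 i j
  · intro h1 h2 h3 k
    exact red_pts_table (by omega) h1 (by omega) hp hG hl h2 h3 k

end Pool.Agent.Results.MP_44b5f4_ag.Reduction
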